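import Mathlib
import Pool.Agent.Lib_helper42.RST.Stmt
import Pool.Agent.Lib_helper42.RSTF.Asm7

/-! The uniform star model with `n/3` stars is the worst case for the exploration time of the
random spanning tree model. -/

set_option autoImplicit false

open MeasureTheory ProbabilityTheory Pool.Agent.RST

namespace Pool.Agent.Results.MP_864bf0_pr.WorstCaseConstant

universe u

/-- For every `ε > 0` and all large `n`: for every set `𝒯` of trees on `[n]`, every probability
distribution `μ` on `𝒯` and independent snapshots `X 1, X 2, …` with law `μ`, the exploration time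
is at most `(1 + ε) √(2π/27) n^{3/2}` with probability at least `1 - ε`. -/
theorem result : ∀ ε : ℝ, 0 < ε → ∃ N : ℕ, ∀ n : ℕ, N ≤ n → 2 ≤ n →
    ∀ (𝒯 : Set (SimpleGraph (Fin n))), (∀ G ∈ 𝒯, G.IsTree) →
    ∀ (μ : Measure (SimpleGraph (Fin n))), IsProbabilityMeasure μ → μ 𝒯ᶜ = 0 →
    ∀ (Ω : Type u) (_ : MeasurableSpace Ω) (Pm : Measure Ω), IsProbabilityMeasure Pm →
    ∀ (X : ℕ → Ω → SimpleGraph (Fin n)), (∀ i, 1 ≤ i → Measurable (X i)) →
      (∀ i, 1 ≤ i → Pm.map (X i) = μ) → iIndepFun (fun i => X (i + 1)) Pm →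
      ENNReal.ofReal (1 - ε) ≤
        Pm {ω | ∃ t : ℕ, texp (fun i => X i ω) = t ∧
          (t : ℝ) ≤ (1 + ε) * Real.sqrt (2 * Real.pi / 27) * (n : ℝ) ^ (3 / 2 : ℝ)} :=
  q1

end Pool.Agent.Results.MP_864bf0_pr.WorstCaseConstant
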